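import Pool.Agent.V8H58.BV.Main

/-!
# The maximum number of edges of bar `k`-visibility graphs in the plane and on the cylinder

`Bars V` is a family of pairwise disjoint closed horizontal segments (bars). `Bars.Sees k u v` is
the adjacency of the problem (`IsBarVisibilityGraph`): a non-degenerate rectangle with one
horizontal side in each of the two bars intersects at most `k` other bars. `Bars.SeesAround k u v`
is the adjacency on the cylinder which arises if all vertical lines are closed up at infinity
(`IsCylinderVisibilityGraph`): one of the two bands between the bars, the rectangle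
`[x₁, x₂] × [y₁, y₂]` or the band `[x₁, x₂] × (ℝ \ (y₁, y₂))` which goes around, intersects at most
`k` other bars. So every bar `k`-visibility graph is a spanning subgraph of one on the cylinder, in
general with fewer edges.

The theorem: for all `k` and `n` the maximum number of edges of a bar `k`-visibility graph with `n`
vertices on the cylinder is the same as in the plane, namely `n (n - 1) / 2` for `n ≤ 4 k + 4` and
`(k + 1) (3 n - 4 k - 6)` for larger `n`.
-/

namespace Pool.Agent.Results.MP_8df6af_co.CylinderVisibility

open Pool.Agent.V8H58.BV

theorem result (k n : ℕ) :
    IsGreatest (cylinderEdgeNumbers k n)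
      (if n ≤ 4 * k + 4 then n.choose 2 else (k + 1) * (3 * n - 4 * k - 6)) ∧
    IsGreatest (edgeNumbers k n) (maxEdges k n) ∧
    maxEdges k n = if n ≤ 4 * k + 4 then n.choose 2 else (k + 1) * (3 * n - 4 * k - 6) := by
  have h1 := greatest k n
  have h2 : maxEdges k n =
      if n ≤ 4 * k + 4 then n.choose 2 else (k + 1) * (3 * n - 4 * k - 6) := h1.csSup_eq
  exact ⟨greatest_cyl k n, h2 ▸ h1, h2⟩

end Pool.Agent.Results.MP_8df6af_co.CylinderVisibility
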